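import Pool.Agent.helper40.SU.SpecA

set_option autoImplicit false

namespace Pool.Agent.SU

open Finset

theorem LOQ_fin (p D n : ℕ) [Fact p.Prime] (s w : ZMod p) (hw : w ≠ 0)
    (h : (D : ZMod p) * s ^ 2 + 4 * w ^ 2 = n) :
    ∃ s w : ℕ, ¬ p ∣ w ∧ D * s ^ 2 + 4 * w ^ 2 ≡ n [MOD p] := by
  refine ⟨s.val, w.val, ?_, ?_⟩
  · rw [← ZMod.natCast_eq_zero_iff, ZMod.natCast_zmod_val]
    exact hw
  · rw [← ZMod.natCast_eq_natCast_iff]
    push_cast
    rw [ZMod.natCast_zmod_val, ZMod.natCast_zmod_val]
    exact h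

theorem LOQ : LOQ_stmt := by
  intro p m hp hp7 hdvd
  have hF : Fact p.Prime := ⟨hp⟩
  have hsmall : ∀ j : ℕ, 0 < j → j < p → (j : ZMod p) ≠ 0 := by
    intro j hj hjp h0
    rw [ZMod.natCast_eq_zero_iff] at h0
    exact absurd (Nat.le_of_dvd hj h0) (by omega)
  have h2 : (2 : ZMod p) ≠ 0 := by exact_mod_cast hsmall 2 (by norm_num) (by omega)
  have h3 : (3 : ZMod p) ≠ 0 := by exact_mod_cast hsmall 3 (by norm_num) (by omega)
  have h5 : (5 : ZMod p) ≠ 0 := by exact_mod_cast hsmall 5 (by norm_num) (by omega)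
  have h7 : (7 : ZMod p) ≠ 0 := by exact_mod_cast hsmall 7 (by norm_num) (by omega)
  have h1680 : (1680 : ZMod p) ≠ 0 := by
    have : (1680 : ZMod p) = 2 ^ 4 * 3 * 5 * 7 := by norm_num
    rw [this]
    exact mul_ne_zero (mul_ne_zero (mul_ne_zero (pow_ne_zero _ h2) h3) h5) h7
  by_cases hm : (m : ZMod p) ^ 2 = -1
  · have hD : ((Df m 419 1 : ℕ) : ZMod p) = 1 := by
      unfold Df
      push_cast
      rw [hm]
      ring
    have hm0 : (m : ZMod p) ≠ 0 := by
      intro h0
      rw [h0] at hm
      have : (1 : ZMod p) = 0 := by linear_combination hm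
      exact one_ne_zero this
    refine ⟨419, 1, ?_, fun n => ?_⟩
    · rw [← ZMod.natCast_eq_zero_iff, hD]
      exact one_ne_zero
    · by_cases hn : (n : ZMod p) = 0
      · apply LOQ_fin p _ n 1 ((m : ZMod p) / 2) (div_ne_zero hm0 h2)
        rw [hD, hn]
        field_simp
        linear_combination (4 : ZMod p) * hm
      · obtain ⟨a, b, hab⟩ := ZMod.sq_add_sq p (n : ZMod p)
        by_cases hb : b = 0
        · have ha : a ≠ 0 := by
            intro ha
            rw [ha, hb] at hab
            apply hn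
            rw [← hab]
            ring
          apply LOQ_fin p _ n b (a / 2) (div_ne_zero ha h2)
          rw [hD]
          field_simp
          linear_combination (4 : ZMod p) * hab
        · apply LOQ_fin p _ n a (b / 2) (div_ne_zero hb h2)
          rw [hD]
          field_simp
          linear_combination (4 : ZMod p) * hab
  · have h1 : ((m : ZMod p) ^ 2 + 1) * ((m : ZMod p) ^ 8 + 1680 ^ 2 * ((m : ZMod p) ^ 2 + 1)) = 0 := by
      have := (ZMod.natCast_eq_zero_iff _ p).2 hdvd
      unfold cf at this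
      push_cast at this
      linear_combination this
    have hm1 : (m : ZMod p) ^ 2 + 1 ≠ 0 := fun h => hm (by linear_combination h)
    have hc := (mul_eq_zero.1 h1).resolve_left hm1
    set h : ZMod p := (m : ZMod p) ^ 4 / 1680 with hh
    have hsq : h ^ 2 = -((m : ZMod p) ^ 2 + 1) := by
      rw [hh]
      field_simp
      linear_combination hc
    have hh0 : h ≠ 0 := by
      intro h0
      rw [h0] at hsq
      apply hm1
      linear_combination hsq
    have hD : ((Df m 1 0 : ℕ) : ZMod p) = -h ^ 2 := by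
      unfold Df
      push_cast
      rw [hsq]
      ring
    refine ⟨1, 0, ?_, fun n => ?_⟩
    · rw [← ZMod.natCast_eq_zero_iff, hD, neg_eq_zero]
      exact pow_ne_zero 2 hh0
    · obtain ⟨t, ht, htn⟩ : ∃ t : ZMod p, t ≠ 0 ∧ t ^ 2 + n ≠ 0 := by
        by_cases h1n : (1 : ZMod p) ^ 2 + n = 0
        · refine ⟨2, h2, fun h4 => h3 ?_⟩
          linear_combination h4 - h1n
        · exact ⟨1, one_ne_zero, h1n⟩
      apply LOQ_fin p _ n ((t - n / t) / (2 * h)) ((t + n / t) / 4)
      · apply div_ne_zero
        · intro h0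
          apply htn
          have := congrArg (· * t) h0
          simp only [zero_mul] at this
          rw [add_mul, div_mul_cancel₀ _ ht] at this
          linear_combination this
        · have : (4 : ZMod p) = 2 ^ 2 := by norm_num
          rw [this]
          exact pow_ne_zero 2 h2
      · rw [hD]
        have h4 : (4 : ZMod p) ≠ 0 := by
          have : (4 : ZMod p) = 2 ^ 2 := by norm_num
          rw [this]
          exact pow_ne_zero 2 h2
        field_simp
        ring

end Pool.Agent.SU
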